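import Pool.Agent.KDT.StmtsK

/-!
KDT, row LFA: local bounds for the adapted coordinates at a general place.
-/

set_option autoImplicit false

namespace Pool.Agent.KDT.H81

open Polynomial NumberField H58Q Pool.Agent.SZT
open Pool.Agent.MNT (QU vC)

section poly

variable {E : Type} [Field E]

lemma lfa_monic (θ : Fin 5 → E) : (∏ i, (X - C (θ i))).Monic := monic_prod_X_sub_C θ Finset.univ

lemma lfa_deg (θ : Fin 5 → E) : (∏ i, (X - C (θ i))).natDegree = 5 := by
  rw [natDegree_finsetProd_X_sub_C_eq_card]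
  simp

lemma lfa_root (θ : Fin 5 → E) (c : E) : (∏ i, (X - C (θ i))).IsRoot c ↔ ∃ k, c = θ k := by
  rw [IsRoot.def, eval_prod, Finset.prod_eq_zero_iff]
  constructor
  · rintro ⟨k, _, hk⟩
    rw [eval_sub, eval_X, eval_C] at hk
    exact ⟨k, sub_eq_zero.mp hk⟩
  · rintro ⟨k, rfl⟩
    refine ⟨k, Finset.mem_univ _, ?_⟩
    rw [eval_sub, eval_X, eval_C, sub_self]

lemma lfa_deriv (θ : Fin 5 → E) (i : Fin 5) :
    (derivative (∏ i, (X - C (θ i)))).eval (θ i) = ∏ k ∈ Finset.univ.erase i, (θ i - θ k) := by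
  have h := Lagrange.eval_nodal_derivative_eval_node_eq (s := Finset.univ) (v := θ)
    (Finset.mem_univ i)
  unfold Lagrange.nodal at h
  rw [h, eval_prod]
  exact Finset.prod_congr rfl fun k _ => by rw [eval_sub, eval_X, eval_C]

end poly

theorem lfa (hLVD : LvdStatement) (hTRO : TroStatement) : LfaStatement := by
  intro E _ _ v c₀ D₀ ρ θ i j hQ h2 hθ hij hρ hρij hD A B U W M hG htau hGen κ e he
  obtain ⟨f, hf⟩ : ∃ f : E[X], f = ∏ i, (X - C (θ i)) := ⟨_, rfl⟩
  rw [← hf] at hD hG htau hGen ⊢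
  have hmon : f.Monic := by rw [hf]; exact lfa_monic θ
  have hdeg : f.natDegree = 5 := by rw [hf]; exact lfa_deg θ
  have hroot : ∀ c, f.IsRoot c ↔ ∃ k, c = θ k := by
    intro c
    rw [hf]
    exact lfa_root θ c
  have hsq : Squarefree f := by
    rw [hf]
    exact (separable_prod_X_sub_C_iff.mpr hθ).squarefree
  have hspl : f.Splits := IsAlgClosed.splits f
  have hri : ∀ k, f.IsRoot (θ k) := fun k => (hroot _).mpr ⟨k, rfl⟩
  have hθne : ∀ k l, k ≠ l → θ k ≠ θ l := fun k l h h' => h (hθ h')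
  have htau' : ∀ c d, f.IsRoot c → f.IsRoot d → c ≠ d → tau f c d (kum f A B) ≠ 0 := by
    intro c d hc hd hcd
    obtain ⟨k, rfl⟩ := (hroot c).mp hc
    obtain ⟨l, rfl⟩ := (hroot d).mp hd
    exact htau k l fun h => hcd (by rw [h])
  have hρ0 : 0 < ρ := by
    rw [← hρij]
    exact v.pos (sub_ne_zero.mpr (hθne i j hij))
  obtain ⟨hc0, hQU⟩ := hQ
  -- the derivative at the roots
  have hder0 : ∀ k, (derivative f).eval (θ k) ≠ 0 := by
    intro k
    rw [hf, lfa_deriv]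
    refine Finset.prod_ne_zero_iff.mpr fun l hl => sub_ne_zero.mpr (hθne k l ?_)
    exact (Finset.ne_of_mem_erase hl).symm
  have hder : ∀ k, Real.log (v ((derivative f).eval (θ k))) ≤ 4 * Real.log ρ := by
    intro k
    have h1 : v ((derivative f).eval (θ k)) ≤ ρ ^ 4 := by
      rw [hf, lfa_deriv, map_prod]
      calc ∏ l ∈ Finset.univ.erase k, v (θ k - θ l) ≤ ∏ _l ∈ Finset.univ.erase k, ρ :=
            Finset.prod_le_prod (fun l _ => v.nonneg _) fun l _ => hρ k l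
        _ = ρ ^ 4 := by
            rw [Finset.prod_const, Finset.card_erase_of_mem (Finset.mem_univ k)]
            simp
    have h3 := Real.log_le_log (v.pos (hder0 k)) h1
    rw [Real.log_pow] at h3
    exact_mod_cast h3
  -- `A` does not vanish at the roots
  have hA0 : ∀ k, A.eval (θ k) ≠ 0 := by
    intro k h
    obtain ⟨u, w, huw⟩ := hG.cop
    have h1 := congrArg (fun g : E[X] => g.eval (θ k)) huw
    simp only [eval_add, eval_mul, eval_one] at h1
    rw [h, IsRoot.def.mp (hri k), mul_zero, mul_zero, add_zero] at h1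
    exact zero_ne_one h1
  obtain ⟨L, hL⟩ : ∃ L : ℝ, L = Lv v f A U M := ⟨_, rfl⟩
  have hLD : 0 ≤ L - D₀ := by
    have := hD A B U W M hG hGen
    rw [hL]
    linarith
  -- the bound for `A` at a root
  have hAle : ∀ k l, k ≠ l → v (A.eval (θ k)) ≤ Real.exp (L - D₀) * ρ ^ 2 := by
    intro k l hkl
    obtain ⟨A', B', V, U', W', A'', B'', V', U'', W'', ⟨_, hG', hGen', hL'⟩, _⟩ :=
      hLVD E f A B U W (θ k) (θ l) M h2 hmon hdeg hsq hspl hG (hri k) (hri l) (hθne k l hkl) htau'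
        hGen
    have h3 := hD A' B' U' W' M hG' hGen'
    rw [hL' v, ← hL] at h3
    have h4 := hder k
    have h5 : Real.log (v (A.eval (θ k))) ≤ (L - D₀) + 2 * Real.log ρ := by linarith
    have h6 : 0 < v (A.eval (θ k)) := v.pos (hA0 k)
    calc v (A.eval (θ k)) = Real.exp (Real.log (v (A.eval (θ k)))) := (Real.exp_log h6).symm
      _ ≤ Real.exp ((L - D₀) + 2 * Real.log ρ) := Real.exp_le_exp.mpr h5
      _ = Real.exp (L - D₀) * ρ ^ 2 := by
          rw [Real.exp_add]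
          congr 1
          rw [show (2 : ℝ) * Real.log ρ = ((2 : ℕ) : ℝ) * Real.log ρ by norm_num, Real.exp_nat_mul,
            Real.exp_log hρ0]
  have htaule : v (tau f (θ i) (θ j) (kum f A B)) ≤ Real.exp (L - D₀) * ρ ^ 3 := by
    obtain ⟨A', B', V, U', W', A'', B'', V', U'', W'', _, _, hG'', hGen'', hL''⟩ :=
      hLVD E f A B U W (θ i) (θ j) M h2 hmon hdeg hsq hspl hG (hri i) (hri j) (hθne i j hij) htau'
        hGen
    have h3 := hD A'' B'' U'' W'' M hG'' hGen''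
    rw [hL'' v, ← hL, hρij] at h3
    have h4 := hder i
    have h4' := hder j
    have h5 : Real.log (v (tau f (θ i) (θ j) (kum f A B))) ≤ (L - D₀) + 3 * Real.log ρ := by
      linarith
    have h6 : 0 < v (tau f (θ i) (θ j) (kum f A B)) := v.pos (htau i j hij)
    calc v (tau f (θ i) (θ j) (kum f A B)) =
        Real.exp (Real.log (v (tau f (θ i) (θ j) (kum f A B)))) := (Real.exp_log h6).symm
      _ ≤ Real.exp ((L - D₀) + 3 * Real.log ρ) := Real.exp_le_exp.mpr h5
      _ = Real.exp (L - D₀) * ρ ^ 3 := by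
          rw [Real.exp_add]
          congr 1
          rw [show (3 : ℝ) * Real.log ρ = ((3 : ℕ) : ℝ) * Real.log ρ by norm_num, Real.exp_nat_mul,
            Real.exp_log hρ0]
  have hAi := hAle i j hij
  have hAj := hAle j i hij.symm
  have hTa := (hTRO E f A B (θ i) (θ j) hmon hdeg hG.toMum hG.two (hri i) (hri j)).2
  have hTb := (hTRO E f A B (θ j) (θ i) hmon hdeg hG.toMum hG.two (hri j) (hri i)).2
  obtain ⟨x, hx⟩ : ∃ x : ℝ, x = Real.exp (L - D₀) := ⟨_, rfl⟩
  have hx1 : 1 ≤ x := by rw [hx]; exact Real.one_le_exp hLD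
  obtain ⟨y, hy⟩ : ∃ y : ℝ, y = Real.exp c₀ := ⟨_, rfl⟩
  have hy1 : 1 ≤ y := by rw [hy]; exact Real.one_le_exp hc0
  rw [← hx] at hAi hAj htaule
  have hk0 : kum f A B 0 = 1 := rfl
  -- the four coordinates
  set u := uni (adc f (θ i) (θ j)) (kum f A B) with hu
  have hu0 : u 0 = 1 := rfl
  have hu1 : u 1 = kum f A B 1 + -(θ i + θ j) * kum f A B 0 := rfl
  have hu2 : u 2 = kum f A B 2 + -(θ i) * kum f A B 1 + (θ i) ^ 2 * kum f A B 0 := rfl
  have hu3 : u 3 = kum f A B 3 + -(θ i + θ j) * kum f A B 2 + θ i * θ j * kum f A B 1 +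
    GG f (θ i) (θ j) * kum f A B 0 := rfl
  have b0 : v (u 0) ≤ (y * x) * ρ ^ 0 := by
    rw [hu0, map_one, pow_zero, mul_one]
    nlinarith
  have hu2' : u 2 = A.eval (θ i) := by rw [hu2, hTa]; ring
  have hu3' : u 3 = tau f (θ i) (θ j) (kum f A B) := by
    rw [hu3]
    unfold tau
    ring
  have b2 : v (u 2) ≤ (y * x) * ρ ^ 2 := by
    rw [hu2']
    refine hAi.trans ?_
    apply mul_le_mul_of_nonneg_right _ (by positivity)
    nlinarith
  have b3 : v (u 3) ≤ (y * x) * ρ ^ 3 := by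
    rw [hu3']
    refine htaule.trans ?_
    apply mul_le_mul_of_nonneg_right _ (by positivity)
    nlinarith
  have b1 : v (u 1) ≤ (y * x) * ρ ^ 1 := by
    have e1 : A.eval (θ i) + -A.eval (θ j) = -((θ i - θ j) * u 1) := by
      rw [hTa, hTb, hu1, hk0]
      ring
    have e2 := hQU (A.eval (θ i)) (-A.eval (θ j))
    rw [e1, v.map_neg, v.map_neg, map_mul, hρij, ← hy] at e2
    have e3 : max (v (A.eval (θ i))) (v (A.eval (θ j))) ≤ x * ρ ^ 2 := max_le hAi hAj
    have e4 : ρ * v (u 1) ≤ ρ * ((y * x) * ρ ^ 1) := by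
      calc ρ * v (u 1) ≤ y * max (v (A.eval (θ i))) (v (A.eval (θ j))) := e2
        _ ≤ y * (x * ρ ^ 2) := mul_le_mul_of_nonneg_left e3 (by linarith)
        _ = ρ * ((y * x) * ρ ^ 1) := by ring
    exact le_of_mul_le_mul_left e4 hρ0
  -- the monomials
  have hsum : e 0 + e 1 + e 2 + e 3 = κ := by
    unfold Ex at he
    exact (Finset.mem_filter.mp he).2.1
  rw [← hL]
  unfold mon wt
  rw [map_prod, Fin.prod_univ_four]
  simp only [map_pow]
  have hyx : 0 ≤ y * x := by positivity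
  have m0 := pow_le_pow_left₀ (v.nonneg _) b0 (e 0)
  have m1 := pow_le_pow_left₀ (v.nonneg _) b1 (e 1)
  have m2 := pow_le_pow_left₀ (v.nonneg _) b2 (e 2)
  have m3 := pow_le_pow_left₀ (v.nonneg _) b3 (e 3)
  have hn : ∀ k, 0 ≤ v (u k) := fun k => v.nonneg _
  calc v (u 0) ^ e 0 * v (u 1) ^ e 1 * v (u 2) ^ e 2 * v (u 3) ^ e 3 ≤
      ((y * x) * ρ ^ 0) ^ e 0 * ((y * x) * ρ ^ 1) ^ e 1 * ((y * x) * ρ ^ 2) ^ e 2 *
        ((y * x) * ρ ^ 3) ^ e 3 := by
        have h0 := pow_nonneg (hn 0) (e 0)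
        have h1 := pow_nonneg (hn 1) (e 1)
        have h2 := pow_nonneg (hn 2) (e 2)
        have h3 := pow_nonneg (hn 3) (e 3)
        gcongr
    _ = (y * x) ^ (e 0 + e 1 + e 2 + e 3) * ρ ^ (e 1 + 2 * e 2 + 3 * e 3) := by
        generalize y * x = z
        ring
    _ = Real.exp (κ * c₀) * Real.exp (κ * (L - D₀)) * ρ ^ (e 1 + 2 * e 2 + 3 * e 3) := by
        rw [hsum, mul_pow, hy, hx, Real.exp_nat_mul, Real.exp_nat_mul]

end Pool.Agent.KDT.H81
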